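import Pool.Agent.Helper43.AX.St

/-! Module PR of project AX (MP_b3ce06_al): from the presentation to `Rel p p`. -/

set_option autoImplicit false

namespace Pool.Agent.Helper14.AX

open Pool.Agent.Helper43.AX
open Pool.Agent.Helper43.GD (cj)

section
variable {G : Type} [Group G]

theorem cinv_pow (g t : G) (n : ℕ) : (g⁻¹ * t * g) ^ n = g⁻¹ * t ^ n * g := by
  have := conj_pow (i := n) (a := g⁻¹) (b := t)
  rwa [inv_inv] at this

theorem cinv_iter {g t : G} {m : ℕ} (h : g⁻¹ * t * g = t ^ m) (n : ℕ) :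
    (g ^ n)⁻¹ * t * g ^ n = t ^ (m ^ n) := by
  induction n with
  | zero => simp
  | succ n ih =>
    calc (g ^ (n + 1))⁻¹ * t * g ^ (n + 1) = g⁻¹ * ((g ^ n)⁻¹ * t * g ^ n) * g := by
          rw [pow_succ]; group
      _ = (g⁻¹ * t * g) ^ (m ^ n) := by rw [ih, cinv_pow]
      _ = t ^ (m ^ (n + 1)) := by rw [h, ← pow_mul, pow_succ, mul_comm]

/-- the square of `w` -/
theorem k_eq {a b : G} (h : a * b * a = b * a * b) : (a * b) ^ 3 = (a * b * a) * (a * b * a) := by
  calc (a * b) ^ 3 = (a * b * a) * (b * a * b) := by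
        rw [pow_succ, pow_succ, pow_one]; group
    _ = _ := by rw [← h]

theorem k_a {a b : G} (h : a * b * a = b * a * b) : Commute ((a * b) ^ 3) a := by
  have h1 : (a * b * a) * a = b * (a * b * a) := by
    calc (a * b * a) * a = (b * a * b) * a := by rw [h]
      _ = _ := by group
  have h2 : (a * b * a) * b = a * (a * b * a) := by
    calc (a * b * a) * b = a * (b * a * b) := by group
      _ = _ := by rw [← h]
  change (a * b) ^ 3 * a = a * (a * b) ^ 3
  rw [k_eq h]
  calc (a * b * a) * (a * b * a) * a = (a * b * a) * ((a * b * a) * a) := by group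
    _ = ((a * b * a) * b) * (a * b * a) := by rw [h1]; group
    _ = _ := by rw [h2]; group

theorem k_b {a b : G} (h : a * b * a = b * a * b) : Commute ((a * b) ^ 3) b := by
  have h1 : (a * b * a) * a = b * (a * b * a) := by
    calc (a * b * a) * a = (b * a * b) * a := by rw [h]
      _ = _ := by group
  have h2 : (a * b * a) * b = a * (a * b * a) := by
    calc (a * b * a) * b = a * (b * a * b) := by group
      _ = _ := by rw [← h]
  change (a * b) ^ 3 * b = b * (a * b) ^ 3
  rw [k_eq h]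
  calc (a * b * a) * (a * b * a) * b = (a * b * a) * ((a * b * a) * b) := by group
    _ = ((a * b * a) * a) * (a * b * a) := by rw [h2]; group
    _ = _ := by rw [h1]; group

theorem aba_c {a b c : G} (ha : Commute c a) (hb : Commute c b) :
    (a * c) * (b * c) * (a * c) = a * b * a * c ^ 3 := by
  have ha' : c * a = a * c := ha
  have hb' : c * b = b * c := hb
  calc (a * c) * (b * c) * (a * c) = a * (c * b) * (c * a) * c := by group
    _ = a * (b * c) * (a * c) * c := by rw [ha', hb']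
    _ = a * b * (c * a) * c * c := by group
    _ = a * b * (a * c) * c * c := by rw [ha']
    _ = a * b * a * c ^ 3 := by rw [pow_succ, pow_succ, pow_one]; group

end

/-- Module PR. -/
theorem hPR (hCA : StCA) : StPR := by
  intro p k hp hk G _ a b t hR hcl
  obtain ⟨hbr, hwt, hS⟩ := hR
  have hka := k_a hbr
  have hkb := k_b hbr
  have hkk := k_eq hbr
  generalize hK : (a * b) ^ 3 = K at hka hkb hkk hS
  generalize hC : K ^ (-k) = c at hS
  have hca : Commute c a := by rw [← hC]; exact hka.zpow_left _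
  have hcb : Commute c b := by rw [← hC]; exact hkb.zpow_left _
  have hcK : Commute K c := by rw [← hC]; exact (Commute.refl K).zpow_right _
  have hKa0 : Commute K (a * c) := hka.mul_right hcK
  have hKb0 : Commute K (b * c) := hkb.mul_right hcK
  have hbr0 : (a * c) * (b * c) * (a * c) = (b * c) * (a * c) * (b * c) := by
    rw [aba_c hca hcb, aba_c hcb hca, hbr]
  have hw0 : (a * c) * (b * c) * (a * c) = a * b * a * c ^ 3 := aba_c hca hcb
  have hlt : K⁻¹ * t * K = t ^ (p ^ 2) := by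
    rw [hkk]
    generalize a * b * a = w at hwt
    calc (w * w)⁻¹ * t * (w * w) = w⁻¹ * (w⁻¹ * t * w) * w := by group
      _ = (w⁻¹ * t ^ p * w)⁻¹ := by rw [hwt]; group
      _ = ((w⁻¹ * t * w) ^ p)⁻¹ := by rw [cinv_pow]
      _ = t ^ (p ^ 2) := by rw [hwt, inv_pow, inv_inv, ← pow_mul, sq]
  have hcomm := hCA G (p ^ 2) (a * c) t K hKa0 hlt hS
  have hwK : Commute K (a * b * a) := (hka.mul_right hkb).mul_right hka
  -- closure
  have hcl2 : ∀ S : Subgroup G, a * c ∈ S → b * c ∈ S → t ∈ S → K ∈ S → S = ⊤ := by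
    intro S h1 h2 h3 h4
    have hc : c ∈ S := by rw [← hC]; exact S.zpow_mem h4 _
    rw [eq_top_iff, ← hcl, Subgroup.closure_le]
    rintro y (rfl | rfl | rfl)
    · have := S.mul_mem h1 (S.inv_mem hc)
      rwa [mul_inv_cancel_right] at this
    · have := S.mul_mem h2 (S.inv_mem hc)
      rwa [mul_inv_cancel_right] at this
    · exact h3
  rcases Int.natAbs_eq (6 * k - 1) with h | h
  · -- `6k - 1 = p`
    rw [hk] at h
    obtain ⟨n, rfl⟩ : ∃ n : ℕ, k = n := ⟨k.toNat, by omega⟩
    have hn : 6 * n = p + 1 := by omega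
    have hc' : c = (K ^ n)⁻¹ := by rw [← hC, zpow_neg, zpow_natCast]
    have hv : (a * c)⁻¹ * (b * c)⁻¹ * (a * c)⁻¹ = K ^ (3 * n) * (a * b * a)⁻¹ := by
      calc (a * c)⁻¹ * (b * c)⁻¹ * (a * c)⁻¹ = ((a * c) * (b * c) * (a * c))⁻¹ := by group
        _ = (c ^ 3)⁻¹ * (a * b * a)⁻¹ := by rw [hw0]; group
        _ = _ := by rw [hc', inv_pow, inv_inv, ← pow_mul, mul_comm 3 n]
    have hwt' : (a * b * a) * t ^ p * (a * b * a)⁻¹ = t⁻¹ := by
      generalize a * b * a = w at hwt
      have : t ^ p = (w⁻¹ * t * w)⁻¹ := by rw [hwt, inv_inv]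
      rw [this]; group
    refine ⟨(a * c)⁻¹, (b * c)⁻¹, K, ?_, ?_⟩
    · refine ⟨?_, ?_, ?_, hlt, ?_, ?_, ?_⟩
      · calc (a * c)⁻¹ * (b * c)⁻¹ * (a * c)⁻¹ = ((a * c) * (b * c) * (a * c))⁻¹ := by group
          _ = ((b * c) * (a * c) * (b * c))⁻¹ := by rw [hbr0]
          _ = _ := by group
      · exact hKa0.inv_right
      · exact hKb0.inv_right
      · rw [hv]
        calc (K ^ (3 * n) * (a * b * a)⁻¹)⁻¹ * t * (K ^ (3 * n) * (a * b * a)⁻¹)
            = (a * b * a) * ((K ^ (3 * n))⁻¹ * t * K ^ (3 * n)) * (a * b * a)⁻¹ := by group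
          _ = (a * b * a) * t ^ ((p ^ 2) ^ (3 * n)) * (a * b * a)⁻¹ := by rw [cinv_iter hlt]
          _ = (a * b * a) * (t ^ p) ^ (p ^ p) * (a * b * a)⁻¹ := by
              rw [← pow_mul, ← pow_mul, ← pow_succ']
              congr 3
              rw [← hn]; ring_nf
          _ = ((a * b * a) * t ^ p * (a * b * a)⁻¹) ^ (p ^ p) := by rw [conj_pow]
          _ = _ := by rw [hwt', inv_pow]
      · rw [hv]
        have e1 : K ^ (3 * n) * (a * b * a)⁻¹ = (a * b * a)⁻¹ * K ^ (3 * n) :=
          ((hwK.pow_left (3 * n)).inv_right).eq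
        calc K ^ (3 * n) * (a * b * a)⁻¹ * (K ^ (3 * n) * (a * b * a)⁻¹)
            = K ^ (3 * n) * ((a * b * a)⁻¹ * K ^ (3 * n)) * (a * b * a)⁻¹ := by group
          _ = K ^ (3 * n) * K ^ (3 * n) * ((a * b * a) * (a * b * a))⁻¹ := by rw [← e1]; group
          _ = K ^ (p + 1) * K⁻¹ := by
              rw [← hkk, ← pow_add]; congr 2; omega
          _ = K ^ p := by rw [pow_succ, mul_inv_cancel_right]
      · have hx : cj (a * c)⁻¹ t ((p ^ 2 : ℕ) : ℤ) = (cj (a * c) t ((p ^ 2 : ℕ) : ℤ))⁻¹ := by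
          unfold cj; group
        have hy : cj (a * c)⁻¹ t 1 = (cj (a * c) t 1)⁻¹ := by
          unfold cj; group
        rw [hx, hy, hS]
        have h01 := hcomm 0 1
        have h00 : cj (a * c) t 0 = a * c := by unfold cj; simp
        rw [h00] at h01
        rw [h01, mul_inv_rev]
    · apply hcl2
      · have := (Subgroup.closure ({(a * c)⁻¹, (b * c)⁻¹, t, K} : Set G)).inv_mem
          (Subgroup.subset_closure (Or.inl rfl))
        rwa [inv_inv] at this
      · have := (Subgroup.closure ({(a * c)⁻¹, (b * c)⁻¹, t, K} : Set G)).inv_mem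
          (Subgroup.subset_closure (Or.inr (Or.inl rfl)))
        rwa [inv_inv] at this
      · exact Subgroup.subset_closure (Or.inr (Or.inr (Or.inl rfl)))
      · exact Subgroup.subset_closure (Or.inr (Or.inr (Or.inr rfl)))
  · -- `6k - 1 = -p`
    rw [hk] at h
    obtain ⟨n, hkn⟩ : ∃ n : ℕ, -k = n := ⟨(-k).toNat, by omega⟩
    have hn : 6 * n + 1 = p := by omega
    have hc' : c = K ^ n := by rw [← hC, hkn, zpow_natCast]
    have hv : (a * c) * (b * c) * (a * c) = (a * b * a) * K ^ (3 * n) := by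
      rw [hw0, hc', ← pow_mul, mul_comm 3 n]
    refine ⟨a * c, b * c, K, ?_, ?_⟩
    · refine ⟨hbr0, hKa0, hKb0, hlt, ?_, ?_, hS⟩
      · rw [hv]
        calc ((a * b * a) * K ^ (3 * n))⁻¹ * t * ((a * b * a) * K ^ (3 * n))
            = (K ^ (3 * n))⁻¹ * ((a * b * a)⁻¹ * t * (a * b * a)) * K ^ (3 * n) := by group
          _ = ((K ^ (3 * n))⁻¹ * t ^ p * K ^ (3 * n))⁻¹ := by rw [hwt]; group
          _ = (((K ^ (3 * n))⁻¹ * t * K ^ (3 * n)) ^ p)⁻¹ := by rw [cinv_pow]
          _ = (t ^ (p ^ p))⁻¹ := by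
              rw [cinv_iter hlt, ← pow_mul, ← pow_mul, ← pow_succ]
              congr 3
              rw [← hn]; ring_nf
      · rw [hv]
        have e1 : K ^ (3 * n) * (a * b * a) = (a * b * a) * K ^ (3 * n) := (hwK.pow_left (3 * n)).eq
        calc (a * b * a) * K ^ (3 * n) * ((a * b * a) * K ^ (3 * n))
            = (a * b * a) * (K ^ (3 * n) * (a * b * a)) * K ^ (3 * n) := by group
          _ = ((a * b * a) * (a * b * a)) * (K ^ (3 * n) * K ^ (3 * n)) := by rw [e1]; group
          _ = K ^ p := by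
              rw [← hkk, ← pow_add, ← pow_succ']; congr 1; omega
    · apply hcl2
      · exact Subgroup.subset_closure (Or.inl rfl)
      · exact Subgroup.subset_closure (Or.inr (Or.inl rfl))
      · exact Subgroup.subset_closure (Or.inr (Or.inr (Or.inl rfl)))
      · exact Subgroup.subset_closure (Or.inr (Or.inr (Or.inr rfl)))

end Pool.Agent.Helper14.AX
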